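import Pool.Agent.H80.SH.Targets

/-!
# Module UNB: the union of few sets which are not dense
-/

namespace Pool.Agent.H50.SH

open Finset Pool.Agent.H80.SH

theorem unb : T_UNB := by
  classical
  intro X ι _ _ V H K J
  have h1 : K.filter (fun x => ∃ j ∈ J, x ∈ V j) ⊆ J.biUnion (fun j => K ∩ V j) := by
    intro x hx
    obtain ⟨hxK, j, hj, hxj⟩ := mem_filter.1 hx
    exact mem_biUnion.2 ⟨j, hj, mem_inter.2 ⟨hxK, hxj⟩⟩
  have h2 : (K.filter (fun x => ∃ j ∈ J, x ∈ V j)).card ≤ ∑ j ∈ J, (K ∩ V j).card :=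
    (card_le_card h1).trans card_biUnion_le
  have h3 : ∀ j ∈ J, H * (K ∩ V j).card ≤
      (if j ∈ dense V H K then H * (K ∩ V j).card else 0) + K.card := by
    intro j _
    by_cases hj : j ∈ dense V H K
    · rw [if_pos hj]
      exact Nat.le_add_right _ _
    · rw [if_neg hj, zero_add]
      by_contra h
      exact hj (mem_filter.2 ⟨mem_univ _, (not_le.1 h).le⟩)
  calc H * (K.filter (fun x => ∃ j ∈ J, x ∈ V j)).card
      ≤ H * ∑ j ∈ J, (K ∩ V j).card := Nat.mul_le_mul_left _ h2
    _ = ∑ j ∈ J, H * (K ∩ V j).card := by rw [mul_sum]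
    _ ≤ ∑ j ∈ J, ((if j ∈ dense V H K then H * (K ∩ V j).card else 0) + K.card) :=
        sum_le_sum h3
    _ = ∑ j ∈ J.filter (· ∈ dense V H K), H * (K ∩ V j).card + J.card * K.card := by
        rw [sum_add_distrib, ← sum_filter, sum_const, smul_eq_mul]
    _ ≤ ∑ j ∈ dense V H K, H * (K ∩ V j).card + J.card * K.card := by
        refine Nat.add_le_add_right (sum_le_sum_of_subset ?_) _
        intro j hj
        exact (mem_filter.1 hj).2
    _ = H * pot V H K + J.card * K.card := by rw [pot, mul_sum]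

end Pool.Agent.H50.SH
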